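import Pool.Agent.H73.Idx2

set_option autoImplicit false

namespace Pool.Agent.Results.MP_8ee1cf_lc.TestSets

open Pool.Agent.H73.Idx

/-- There is an algorithm that, given an indexed grammar `G`, outputs a test set for `L(G)`. -/
theorem result :
    ∃ T : Grammar → List (List ℕ), Computable T ∧ ∀ G : Grammar, IsTestSet (Lang G) (T G) :=
  main

end Pool.Agent.Results.MP_8ee1cf_lc.TestSets
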